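import Mathlib

/-! Two nonisomorphic groups of nilpotency class 2 on the set `ℤ × ℤ/25` such that a subset of
`(ℤ × ℤ/25)^m` is a subgroup for the one structure if and only if it is one for the other. -/

set_option autoImplicit false

namespace Pool.Agent.Q301.PR

/-- The set `ℤ × ℤ/25`, to be given the group structure with parameter `c`. -/
@[ext] structure Gr (c : ZMod 25) where
  a : ℤ
  b : ZMod 25

variable {c : ZMod 25}

theorem h25 : (25 : ZMod 25) = 0 := by decide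

instance : Mul (Gr c) := ⟨fun u v => ⟨u.a + v.a, u.b + v.b + 5 * c * (u.a * v.b - v.a * u.b)⟩⟩
instance : One (Gr c) := ⟨⟨0, 0⟩⟩
instance : Inv (Gr c) := ⟨fun u => ⟨-u.a, -u.b⟩⟩

@[simp] theorem mul_a (u v : Gr c) : (u * v).a = u.a + v.a := rfl
@[simp] theorem mul_b (u v : Gr c) :
    (u * v).b = u.b + v.b + 5 * c * (u.a * v.b - v.a * u.b) := rfl
@[simp] theorem one_a : (1 : Gr c).a = 0 := rfl
@[simp] theorem one_b : (1 : Gr c).b = 0 := rfl
@[simp] theorem inv_a (u : Gr c) : (u⁻¹).a = -u.a := rfl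
@[simp] theorem inv_b (u : Gr c) : (u⁻¹).b = -u.b := rfl

instance : Group (Gr c) := Group.ofLeftAxioms
  (by
    intro u v w
    ext
    · simp [add_assoc]
    · simp only [mul_b, mul_a, Int.cast_add]
      linear_combination (c ^ 2 * (- w.a * (u.a * v.b - v.a * u.b) - u.a * (v.a * w.b - w.a * v.b))) * h25)
  (by intro u; ext <;> simp)
  (by intro u; ext <;> simp)

/-- The identity of the underlying sets. -/
def T (c d : ZMod 25) (u : Gr c) : Gr d := ⟨u.a, u.b⟩

@[simp] theorem T_a (d : ZMod 25) (u : Gr c) : (T c d u).a = u.a := rfl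
@[simp] theorem T_b (d : ZMod 25) (u : Gr c) : (T c d u).b = u.b := rfl

theorem T_T (c d : ZMod 25) (u : Gr c) : T d c (T c d u) = u := rfl
theorem T_one (c d : ZMod 25) : T c d 1 = 1 := rfl
theorem T_inv (c d : ZMod 25) (u : Gr c) : T c d u⁻¹ = (T c d u)⁻¹ := rfl

/-- the product for the parameter 2 in terms of the parameter 1 -/
theorem mul21 (u v : Gr 2) : T 2 1 (u * v) = T 2 1 u * T 2 1 v *
    (T 2 1 u * T 2 1 v * (T 2 1 u)⁻¹ * (T 2 1 v)⁻¹) *
    (T 2 1 u * T 2 1 v * (T 2 1 u)⁻¹ * (T 2 1 v)⁻¹) *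
    (T 2 1 u * T 2 1 v * (T 2 1 u)⁻¹ * (T 2 1 v)⁻¹) := by
  obtain ⟨a, b⟩ := u
  obtain ⟨a', b'⟩ := v
  ext
  · simp
  · simp only [T, mul_a, mul_b, inv_a, inv_b, Int.cast_add, Int.cast_neg]
    generalize (a : ZMod 25) = x
    generalize (a' : ZMod 25) = y
    linear_combination (1*b*y + 12*b*y^2 + 30*b*y^3 + -1*x*b' + -12*x*y*b' + -30*x*y^2*b' + 9*x*b*y + 60*x*b*y^2 + 75*x*b*y^3 + -9*x^2*b' + -60*x^2*y*b' + -75*x^2*y^2*b' + 15*x^2*b*y + 75*x^2*b*y^2 + -15*x^3*b' + -75*x^3*y*b') * h25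

theorem mul12 (u v : Gr 1) : T 1 2 (u * v) = T 1 2 u * T 1 2 v *
    (T 1 2 u * T 1 2 v * (T 1 2 u)⁻¹ * (T 1 2 v)⁻¹) := by
  obtain ⟨a, b⟩ := u
  obtain ⟨a', b'⟩ := v
  ext
  · simp
  · simp only [T, mul_a, mul_b, inv_a, inv_b, Int.cast_add, Int.cast_neg]
    generalize (a : ZMod 25) = x
    generalize (a' : ZMod 25) = y
    linear_combination (1*b*y + 16*b*y^2 + 80*b*y^3 + -1*x*b' + -16*x*y*b' + -80*x*y^2*b' + 12*x*b*y + 160*x*b*y^2 + 400*x*b*y^3 + -12*x^2*b' + -160*x^2*y*b' + -400*x^2*y^2*b' + 40*x^2*b*y + 400*x^2*b*y^2 + -40*x^3*b' + -400*x^3*y*b') * h25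

/-- Subgroups of a power for the parameter 1 are subgroups for the parameter 2. -/
def up {ι : Type} (S : Subgroup (ι → Gr 1)) : Subgroup (ι → Gr 2) where
  carrier := {f | (fun i => T 2 1 (f i)) ∈ S}
  mul_mem' := by
    intro f g hf hg
    simp only [Set.mem_ofPred_eq] at hf hg ⊢
    have h : (fun i => T 2 1 ((f * g) i)) = (fun i => T 2 1 (f i)) * (fun i => T 2 1 (g i)) *
        ((fun i => T 2 1 (f i)) * (fun i => T 2 1 (g i)) * (fun i => T 2 1 (f i))⁻¹ *
          (fun i => T 2 1 (g i))⁻¹) *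
        ((fun i => T 2 1 (f i)) * (fun i => T 2 1 (g i)) * (fun i => T 2 1 (f i))⁻¹ *
          (fun i => T 2 1 (g i))⁻¹) *
        ((fun i => T 2 1 (f i)) * (fun i => T 2 1 (g i)) * (fun i => T 2 1 (f i))⁻¹ *
          (fun i => T 2 1 (g i))⁻¹) := by
      funext i
      exact mul21 (f i) (g i)
    rw [h]
    have hc := S.mul_mem (S.mul_mem (S.mul_mem hf hg) (S.inv_mem hf)) (S.inv_mem hg)
    exact S.mul_mem (S.mul_mem (S.mul_mem (S.mul_mem hf hg) hc) hc) hc
  one_mem' := by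
    simp only [Set.mem_ofPred_eq]
    exact S.one_mem
  inv_mem' := by
    intro f hf
    simp only [Set.mem_ofPred_eq] at hf ⊢
    exact S.inv_mem hf

/-- Subgroups of a power for the parameter 2 are subgroups for the parameter 1. -/
def down {ι : Type} (S : Subgroup (ι → Gr 2)) : Subgroup (ι → Gr 1) where
  carrier := {f | (fun i => T 1 2 (f i)) ∈ S}
  mul_mem' := by
    intro f g hf hg
    simp only [Set.mem_ofPred_eq] at hf hg ⊢
    have h : (fun i => T 1 2 ((f * g) i)) = (fun i => T 1 2 (f i)) * (fun i => T 1 2 (g i)) *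
        ((fun i => T 1 2 (f i)) * (fun i => T 1 2 (g i)) * (fun i => T 1 2 (f i))⁻¹ *
          (fun i => T 1 2 (g i))⁻¹) := by
      funext i
      exact mul12 (f i) (g i)
    rw [h]
    have hc := S.mul_mem (S.mul_mem (S.mul_mem hf hg) (S.inv_mem hf)) (S.inv_mem hg)
    exact S.mul_mem (S.mul_mem hf hg) hc
  one_mem' := by
    simp only [Set.mem_ofPred_eq]
    exact S.one_mem
  inv_mem' := by
    intro f hf
    simp only [Set.mem_ofPred_eq] at hf ⊢
    exact S.inv_mem hf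

/-- The projectivity. -/
def phi (ι : Type) : Subgroup (ι → Gr 1) ≃o Subgroup (ι → Gr 2) where
  toFun := up
  invFun := down
  left_inv := fun S => by
    ext f
    exact Iff.rfl
  right_inv := fun S => by
    ext f
    exact Iff.rfl
  map_rel_iff' := by
    intro S S'
    constructor
    · intro h f hf
      exact h (x := fun i => T 1 2 (f i)) hf
    · intro h f hf
      exact h hf

theorem phi_single {ι : Type} [DecidableEq ι] (i : ι) :
    phi ι (MonoidHom.mulSingle (fun _ : ι => Gr 1) i).range =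
      (MonoidHom.mulSingle (fun _ : ι => Gr 2) i).range := by
  ext f
  change (fun j => T 2 1 (f j)) ∈ (MonoidHom.mulSingle (fun _ : ι => Gr 1) i).range ↔ _
  simp only [MonoidHom.mem_range, MonoidHom.mulSingle_apply]
  constructor
  · rintro ⟨u, hu⟩
    refine ⟨T 1 2 u, ?_⟩
    funext j
    have h := congrFun hu j
    by_cases hj : j = i
    · subst hj
      simp only [Pi.mulSingle_eq_same] at h ⊢
      rw [h, T_T]
    · simp only [Pi.mulSingle_eq_of_ne hj] at h ⊢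
      rw [← T_T 2 1 (f j), ← h, T_one]
  · rintro ⟨u, rfl⟩
    refine ⟨T 2 1 u, ?_⟩
    funext j
    by_cases hj : j = i
    · subst hj
      simp only [Pi.mulSingle_eq_same]
    · simp only [Pi.mulSingle_eq_of_ne hj, T_one]

theorem pow_tors (c : ZMod 25) (b : ZMod 25) (n : ℕ) :
    ((⟨0, b⟩ : Gr c) ^ n) = ⟨0, n * b⟩ := by
  induction n with
  | zero => ext <;> simp
  | succ n ih =>
    rw [pow_succ, ih]
    ext
    · simp
    · simp
      ring

theorem pow_a (c : ZMod 25) (u : Gr c) (n : ℕ) : (u ^ n).a = n * u.a := by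
  induction n with
  | zero => simp
  | succ n ih =>
    rw [pow_succ, mul_a, ih]
    push_cast
    ring

/-- The two groups are not isomorphic. -/
theorem not_iso (e : Gr 2 ≃* Gr 1) : False := by
  have hF : ∀ g h : Gr 2, (e (g * h)).a = (e g).a + (e h).a := by
    intro g h
    rw [map_mul, mul_a]
  have hT : ∀ b : ZMod 25, (e ⟨0, b⟩).a = 0 := by
    intro b
    have h1 : (⟨0, b⟩ : Gr 2) ^ 25 = 1 := by
      rw [pow_tors]
      ext
      · rfl
      · change ((25 : ℕ) : ZMod 25) * b = 0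
        rw [ZMod.natCast_self, zero_mul]
    have h2 := congrArg e h1
    rw [map_pow, map_one] at h2
    have h3 := congrArg Gr.a h2
    rw [pow_a, one_a] at h3
    push_cast at h3
    omega
  obtain ⟨F, hFd⟩ : ∃ F : ℤ →+ ℤ, ∀ i, F i = (e ⟨i, 0⟩).a := by
    refine ⟨AddMonoidHom.mk' (fun i => (e ⟨i, 0⟩).a) ?_, fun i => rfl⟩
    intro i j
    rw [← hF]
    congr 2
    ext <;> simp
  have hFi : ∀ i : ℤ, (e ⟨i, 0⟩).a = i * (e ⟨1, 0⟩).a := by
    intro i
    have h := map_zsmul F i 1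
    rw [smul_eq_mul, mul_one, smul_eq_mul, hFd, hFd] at h
    exact h
  have hg : ∀ g : Gr 2, (e g).a = g.a * (e ⟨1, 0⟩).a := by
    rintro ⟨i, b⟩
    have h : (⟨i, b⟩ : Gr 2) = ⟨i, 0⟩ * ⟨0, b⟩ * ⟨0, -(10 * i * b)⟩ := by
      ext
      · simp
      · simp only [mul_b, mul_a]
        push_cast
        linear_combination (4 * i ^ 2 * b) * h25
    rw [h, hF, hF, hT, hT, hFi]
    simp
  obtain ⟨a, ha⟩ : ∃ a : ℤ, a = (e ⟨1, 0⟩).a := ⟨_, rfl⟩
  have ha1 : a = 1 ∨ a = -1 := by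
    obtain ⟨g, hgg⟩ := e.surjective ⟨1, 0⟩
    have h := hg g
    rw [hgg, ← ha] at h
    have h' : g.a * a = 1 := h.symm
    exact Int.eq_one_or_neg_one_of_mul_eq_one' (by rw [mul_comm]; exact h') |>.imp And.left And.left
  obtain ⟨u, hu⟩ : ∃ u : ZMod 25, e ⟨0, 1⟩ = ⟨0, u⟩ := by
    refine ⟨(e ⟨0, 1⟩).b, ?_⟩
    ext
    · exact hT 1
    · rfl
  obtain ⟨t, ht⟩ : ∃ t : ZMod 25, e ⟨1, 0⟩ = ⟨a, t⟩ := by
    refine ⟨(e ⟨1, 0⟩).b, ?_⟩
    ext
    · exact ha.symm
    · rfl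
  have h5 : 5 * u ≠ 0 := by
    intro h
    have h1 : e ((⟨0, 1⟩ : Gr 2) ^ 5) = 1 := by
      rw [map_pow, hu, pow_tors]
      ext
      · rfl
      · simpa using h
    rw [map_eq_one_iff e e.injective, pow_tors] at h1
    have h2 := congrArg Gr.b h1
    simp only [mul_one, one_b] at h2
    exact absurd h2 (by decide)
  have hrel : (⟨1, 0⟩ : Gr 2) * ⟨0, 1⟩ * (⟨1, 0⟩ : Gr 2)⁻¹ = ⟨0, 1⟩ ^ 21 := by
    rw [pow_tors]
    ext
    · simp
    · simp only [mul_b, mul_a, inv_a, inv_b]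
      decide
  have h2 := congrArg e hrel
  rw [map_mul, map_mul, map_inv, map_pow, hu, ht, pow_tors] at h2
  have h3 := congrArg Gr.b h2
  simp only [mul_b, mul_a, inv_a, inv_b] at h3
  have key1 : ∀ u t : ZMod 25, 5 * u ≠ 0 →
      t + u + 5 * 1 * (1 * u - 0 * t) + -t + 5 * 1 * ((1 + 0) * -t - -1 * (t + u + 5 * 1 * (1 * u - 0 * t))) ≠ 21 * u := by
    decide
  have key2 : ∀ u t : ZMod 25, 5 * u ≠ 0 →
      t + u + 5 * 1 * (-1 * u - 0 * t) + -t + 5 * 1 * ((-1 + 0) * -t - 1 * (t + u + 5 * 1 * (-1 * u - 0 * t))) ≠ 21 * u := by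
    decide
  rcases ha1 with rfl | rfl
  · refine key1 u t h5 ?_
    push_cast at h3
    simpa using h3
  · refine key2 u t h5 ?_
    push_cast at h3
    simpa using h3

end Pool.Agent.Q301.PR
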