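import Mathlib
import Pool.Agent.Q301.PR.Base

set_option autoImplicit false
open Pool.Agent

namespace Pool.Agent.Q301.PR


/-- The negation of the preceding statement: For every group G, every m ≥ 2 and every lattice isomorphism φ from the subgroups of G^m to the subgroups of a group H such that H is the internal direct product of the images of the coordinate subgroups, the image of the first coordinate subgroup is isomorphic to G. -/
theorem schmidt_direct_powers_counterexample :
    ¬ (∀ (G : Type) [Group G] (n : ℕ) (H : Type) [Group H]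
      (φ : Subgroup (Fin (n + 2) → G) ≃o Subgroup H),
      (∀ i : Fin (n + 2),
          (φ (MonoidHom.mulSingle (fun _ : Fin (n + 2) => G) i).range).Normal) →
      (⨆ i : Fin (n + 2), φ (MonoidHom.mulSingle (fun _ : Fin (n + 2) => G) i).range) = ⊤ →
      iSupIndep (fun i : Fin (n + 2) =>
          φ (MonoidHom.mulSingle (fun _ : Fin (n + 2) => G) i).range) →
      Nonempty (↥(φ (MonoidHom.mulSingle (fun _ : Fin (n + 2) => G) 0).range) ≃* G)) := by
  intro h
  have h1 := h (Q301.PR.Gr 1) 0 (Fin 2 → Q301.PR.Gr 2) (Q301.PR.phi (Fin 2))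
  have hs : ∀ i : Fin 2, Q301.PR.phi (Fin 2)
      (MonoidHom.mulSingle (fun _ : Fin 2 => Q301.PR.Gr 1) i).range =
      (MonoidHom.mulSingle (fun _ : Fin 2 => Q301.PR.Gr 2) i).range :=
    fun i => Q301.PR.phi_single i
  have hmem : ∀ (i : Fin 2) (f : Fin 2 → Q301.PR.Gr 2),
      f ∈ (MonoidHom.mulSingle (fun _ : Fin 2 => Q301.PR.Gr 2) i).range ↔
        ∀ j, j ≠ i → f j = 1 := by
    intro i f
    rw [MonoidHom.mem_range]
    constructor
    · rintro ⟨u, rfl⟩ j hj
      rw [MonoidHom.mulSingle_apply, Pi.mulSingle_eq_of_ne hj]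
    · intro hf
      refine ⟨f i, ?_⟩
      rw [MonoidHom.mulSingle_apply]
      funext j
      by_cases hj : j = i
      · subst hj
        rw [Pi.mulSingle_eq_same]
      · rw [Pi.mulSingle_eq_of_ne hj, hf j hj]
  have c1 : ∀ i : Fin 2, (Q301.PR.phi (Fin 2)
      (MonoidHom.mulSingle (fun _ : Fin 2 => Q301.PR.Gr 1) i).range).Normal := by
    intro i
    rw [hs i]
    refine ⟨fun f hf g => ?_⟩
    rw [hmem] at hf ⊢
    intro j hj
    rw [Pi.mul_apply, Pi.mul_apply, Pi.inv_apply, hf j hj, mul_one, mul_inv_cancel]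
  have c2 : (⨆ i : Fin 2, Q301.PR.phi (Fin 2)
      (MonoidHom.mulSingle (fun _ : Fin 2 => Q301.PR.Gr 1) i).range) = ⊤ := by
    simp only [hs]
    rw [eq_top_iff]
    intro f _
    have hf : f = MonoidHom.mulSingle (fun _ : Fin 2 => Q301.PR.Gr 2) 0 (f 0) *
        MonoidHom.mulSingle (fun _ : Fin 2 => Q301.PR.Gr 2) 1 (f 1) := by
      funext j
      fin_cases j <;> simp
    rw [hf]
    exact Subgroup.mul_mem _
      (Subgroup.mem_iSup_of_mem 0 ⟨f 0, rfl⟩) (Subgroup.mem_iSup_of_mem 1 ⟨f 1, rfl⟩)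
  have c3 : iSupIndep (fun i : Fin 2 => Q301.PR.phi (Fin 2)
      (MonoidHom.mulSingle (fun _ : Fin 2 => Q301.PR.Gr 1) i).range) := by
    simp only [hs]
    intro i
    rw [Subgroup.disjoint_def]
    intro f hf hf'
    rw [hmem] at hf
    have hle : (⨆ j, ⨆ (_ : j ≠ i), (MonoidHom.mulSingle (fun _ : Fin 2 => Q301.PR.Gr 2) j).range) ≤
        (Pi.evalMonoidHom (fun _ : Fin 2 => Q301.PR.Gr 2) i).ker := by
      refine iSup_le fun j => iSup_le fun hj => ?_
      intro g hg
      rw [hmem] at hg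
      exact hg i hj.symm
    have h3 : f i = 1 := hle hf'
    funext j
    by_cases hj : j = i
    · subst hj
      exact h3
    · exact hf j hj
  obtain ⟨e⟩ := h1 c1 c2 c3
  have e0 : (Q301.PR.phi (Fin 2)
      (MonoidHom.mulSingle (fun _ : Fin 2 => Q301.PR.Gr 1) 0).range) ≃*
      (MonoidHom.mulSingle (fun _ : Fin 2 => Q301.PR.Gr 2) 0).range :=
    MulEquiv.subgroupCongr (hs 0)
  have hinj : Function.Injective (MonoidHom.mulSingle (fun _ : Fin 2 => Q301.PR.Gr 2) 0) := by
    intro a b hab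
    have h4 := congrFun hab 0
    simpa using h4
  have e1 : Q301.PR.Gr 2 ≃* (MonoidHom.mulSingle (fun _ : Fin 2 => Q301.PR.Gr 2) 0).range :=
    MonoidHom.ofInjective hinj
  exact Q301.PR.not_iso (e1.trans (e0.symm.trans e))

end Pool.Agent.Q301.PR
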